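import Mathlib

/-! Monic integer polynomials oscillating on an interval of length larger than four. -/

namespace Pool.Agent.H.MP_be0b77_nt

open Polynomial

theorem chebMonic (n : ℕ) : IsMonicOfDegree (Chebyshev.C ℤ ((n + 1 : ℕ) : ℤ)) (n + 1) := by
  have key : ∀ n : ℕ, IsMonicOfDegree (Chebyshev.C ℤ ((n + 1 : ℕ) : ℤ)) (n + 1) ∧
      (Chebyshev.C ℤ (n : ℤ)).natDegree ≤ n := by
    intro n
    induction n with
    | zero =>
      refine ⟨?_, ?_⟩
      · simpa using isMonicOfDegree_X ℤ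
      · simp only [Nat.cast_zero, Chebyshev.C_zero]
        exact (natDegree_ofNat 2).le
    | succ n ih =>
      refine ⟨?_, ih.1.natDegree_eq.le⟩
      have h : Chebyshev.C ℤ ((n + 1 + 1 : ℕ) : ℤ) =
          X * Chebyshev.C ℤ ((n + 1 : ℕ) : ℤ) - Chebyshev.C ℤ (n : ℤ) := by
        have := Chebyshev.C_add_two ℤ (n : ℤ)
        push_cast
        rw [show (n : ℤ) + 1 + 1 = n + 2 by ring, this]
      rw [h]
      have h1 := (isMonicOfDegree_X ℤ).mul ih.1
      rw [show 1 + (n + 1) = n + 1 + 1 by ring] at h1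
      exact h1.sub (by have := ih.2; omega)
  exact (key n).1

theorem chebDeriv (n : ℤ) :
    derivative (Chebyshev.C ℤ n) = (n : ℤ[X]) * Chebyshev.S ℤ (n - 1) := by
  have h1 := congrArg derivative (Chebyshev.C_comp_two_mul_X ℤ n)
  rw [derivative_comp, derivative_mul, derivative_mul, Chebyshev.T_derivative_eq_U,
    ← Chebyshev.S_comp_two_mul_X] at h1
  simp only [derivative_ofNat, zero_mul, derivative_X, mul_one, zero_add] at h1
  have h2 : (derivative (Chebyshev.C ℤ n) - (n : ℤ[X]) * Chebyshev.S ℤ (n - 1)).comp (2 * X) = 0 := by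
    have h3 : (2 : ℤ[X]) * (derivative (Chebyshev.C ℤ n) -
        (n : ℤ[X]) * Chebyshev.S ℤ (n - 1)).comp (2 * X) = 0 := by
      rw [sub_comp, mul_comp, intCast_comp, mul_sub, h1]
      ring
    exact (mul_eq_zero.1 h3).resolve_left (by norm_num)
  rcases comp_eq_zero_iff.1 h2 with h | ⟨-, h⟩
  · exact sub_eq_zero.1 h
  · exfalso
    have := congrArg (fun p : ℤ[X] => p.coeff 1) h
    simp at this

/-- shifted monic Chebyshev polynomial of the interval from zero to four -/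
noncomputable def P (n : ℕ) : ℤ[X] := (Chebyshev.C ℤ (n : ℤ)).comp (X - C 2)

theorem P_monic (n : ℕ) : IsMonicOfDegree (P (n + 1)) (n + 1) := by
  have := (chebMonic n).comp one_ne_zero (isMonicOfDegree_X_sub_one (2 : ℤ))
  simpa [P] using this

theorem P_coeff (n k : ℕ) (hk : k ≤ n) : (n : ℤ) ∣ (k : ℤ) * (P n).coeff (n - k) := by
  rcases Nat.eq_or_lt_of_le hk with rfl | hlt
  · exact Dvd.intro _ rfl
  obtain ⟨j, hj⟩ : ∃ j, n - k = j + 1 := ⟨n - k - 1, by omega⟩
  have h1 : derivative (P n) = C (n : ℤ) * (Chebyshev.S ℤ ((n : ℤ) - 1)).comp (X - C 2) := by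
    rw [P, derivative_comp, chebDeriv]
    simp
  have h2 := congrArg (fun p : ℤ[X] => p.coeff j) h1
  simp only [coeff_derivative, coeff_C_mul] at h2
  rw [hj]
  have h3 : (k : ℤ) = n - (j + 1) := by omega
  rw [h3, sub_mul, mul_comm ((j : ℤ) + 1), h2]
  exact Dvd.dvd.sub (Dvd.intro _ rfl) (Dvd.intro _ rfl)

theorem P_eval (n : ℕ) (θ : ℝ) :
    ((P n).map (Int.castRingHom ℝ)).eval (2 + 2 * Real.cos θ) = 2 * Real.cos (n * θ) := by
  rw [P, map_comp, eval_comp, Chebyshev.map_C]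
  rw [Polynomial.map_sub, map_X, map_C, eval_sub, eval_X, eval_C, eq_intCast, Int.cast_ofNat]
  rw [show (2 : ℝ) + 2 * Real.cos θ - 2 = 2 * Real.cos θ by ring, Chebyshev.C_two_mul_real_cos]
  simp

/-- scaled basis -/
noncomputable def B (l : ℝ) : ℕ → ℝ[X]
  | 0 => 1
  | n + 1 => ((P (n + 1)).map (Int.castRingHom ℝ)).scaleRoots l

theorem B_monic (l : ℝ) (n : ℕ) : IsMonicOfDegree (B l n) n := by
  cases n with
  | zero => simp [B]
  | succ n =>
    have h := P_monic n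
    refine ⟨?_, ?_⟩
    · rw [B, natDegree_scaleRoots, h.monic.natDegree_map, h.natDegree_eq]
    · rw [B, monic_scaleRoots_iff]
      exact h.monic.map _

theorem B_eval (l : ℝ) (n : ℕ) (θ : ℝ) :
    (B l (n + 1)).eval (l * (2 + 2 * Real.cos θ)) =
      l ^ (n + 1) * (2 * Real.cos ((n + 1 : ℕ) * θ)) := by
  rw [B, scaleRoots_eval_mul, P_eval, (P_monic n).monic.natDegree_map, (P_monic n).natDegree_eq]

theorem B_bound {l : ℝ} (hl : 0 ≤ l) (n : ℕ) (θ : ℝ) :
    |(B l n).eval (l * (2 + 2 * Real.cos θ))| ≤ 2 * l ^ n := by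
  cases n with
  | zero => simp [B]
  | succ n =>
    rw [B_eval, abs_mul, abs_mul, abs_of_nonneg (pow_nonneg hl _)]
    have := Real.abs_cos_le_one (((n + 1 : ℕ) : ℝ) * θ)
    have h2 := pow_nonneg hl (n + 1)
    rw [abs_two]
    nlinarith

theorem B_coeff (l : ℝ) (n k : ℕ) (hk : k ≤ n + 1) :
    (B l (n + 1)).coeff (n + 1 - k) = ((P (n + 1)).coeff (n + 1 - k) : ℝ) * l ^ k := by
  rw [B, coeff_scaleRoots, coeff_map, (P_monic n).monic.natDegree_map, (P_monic n).natDegree_eq]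
  simp only [eq_intCast]
  congr 2
  omega

/-- downward correction of coefficients -/
theorem correct {l : ℝ} (hl : 0 ≤ l) (m : ℕ) : ∀ p : ℝ[X],
    (∀ i, m ≤ i → ∃ z : ℤ, p.coeff i = z) →
    ∃ q : ℝ[X], (∀ i, ∃ z : ℤ, q.coeff i = z) ∧ (∀ i, m ≤ i → q.coeff i = p.coeff i) ∧
      ∀ θ : ℝ, |q.eval (l * (2 + 2 * Real.cos θ)) - p.eval (l * (2 + 2 * Real.cos θ))| ≤
        ∑ i ∈ Finset.range m, 2 * l ^ i := by
  induction m with
  | zero => exact fun p hp => ⟨p, fun i => hp i (Nat.zero_le _), fun _ _ => rfl, by simp⟩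
  | succ m ih =>
    intro p hp
    have hB := B_monic l m
    have hB1 : (B l m).coeff m = 1 := by
      have := hB.monic.coeff_natDegree
      rwa [hB.natDegree_eq] at this
    have hB2 : ∀ i, m < i → (B l m).coeff i = 0 := fun i hi =>
      coeff_eq_zero_of_natDegree_lt (by rw [hB.natDegree_eq]; exact hi)
    obtain ⟨q, hq1, hq2, hq3⟩ := ih (p - C (Int.fract (p.coeff m)) * B l m) (by
      intro i hi
      rcases Nat.eq_or_lt_of_le hi with rfl | hlt
      · refine ⟨⌊p.coeff m⌋, ?_⟩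
        rw [coeff_sub, coeff_C_mul, hB1, mul_one, Int.self_sub_fract]
      · obtain ⟨z, hz⟩ := hp i hlt
        exact ⟨z, by rw [coeff_sub, coeff_C_mul, hB2 i hlt, mul_zero, sub_zero, hz]⟩)
    refine ⟨q, hq1, fun i hi => ?_, fun θ => ?_⟩
    · rw [hq2 i (by omega), coeff_sub, coeff_C_mul, hB2 i hi, mul_zero, sub_zero]
    · have h1 := hq3 θ
      have h2 := B_bound hl m θ
      rw [eval_sub, eval_mul, eval_C] at h1
      rw [Finset.sum_range_succ]
      have h3 : |Int.fract (p.coeff m) * (B l m).eval (l * (2 + 2 * Real.cos θ))| ≤ 2 * l ^ m := by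
        rw [abs_mul, abs_of_nonneg (Int.fract_nonneg _)]
        have := Int.fract_lt_one (p.coeff m)
        have h4 := Int.fract_nonneg (p.coeff m)
        have h5 := abs_nonneg ((B l m).eval (l * (2 + 2 * Real.cos θ)))
        nlinarith
      rw [abs_le] at h1 h3 ⊢
      constructor <;> linarith [h1.1, h1.2, h3.1, h3.2]

theorem top_int (a b : ℕ) (hb : 0 < b) (K r n : ℕ) (hn : n + 1 = K.factorial * b ^ K * r)
    (i : ℕ) (hi : n + 1 - K ≤ i) : ∃ z : ℤ, (B ((a : ℝ) / b) (n + 1)).coeff i = z := by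
  have hB := B_monic ((a : ℝ) / b) (n + 1)
  rcases lt_trichotomy i (n + 1) with hlt | rfl | hgt
  · obtain ⟨k, hk, rfl⟩ : ∃ k, k ≤ n + 1 ∧ i = n + 1 - k := ⟨n + 1 - i, by omega, by omega⟩
    have hk0 : 0 < k := by omega
    have hkK : k ≤ K := by omega
    rw [B_coeff _ _ _ hk]
    obtain ⟨c, hc⟩ := P_coeff (n + 1) k hk
    obtain ⟨d, hd⟩ := Nat.dvd_factorial hk0 hkK
    obtain ⟨e, rfl⟩ := Nat.exists_eq_add_of_le hkK
    have h1 : (P (n + 1)).coeff (n + 1 - k) = (b : ℤ) ^ k * (d * b ^ e * r * c) := by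
      have hk1 : (k : ℤ) ≠ 0 := by exact_mod_cast hk0.ne'
      apply mul_left_cancel₀ hk1
      rw [hc, hn, hd]
      push_cast
      ring
    refine ⟨d * b ^ e * r * c * a ^ k, ?_⟩
    rw [h1]
    have hb1 : (b : ℝ) ≠ 0 := by exact_mod_cast hb.ne'
    push_cast
    rw [div_pow]
    field_simp
  · refine ⟨1, ?_⟩
    have := hB.monic.coeff_natDegree
    rw [hB.natDegree_eq] at this
    simpa using this
  · exact ⟨0, by simpa using coeff_eq_zero_of_natDegree_lt (by rw [hB.natDegree_eq]; exact hgt)⟩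

/-- Robinson's oscillating integer polynomial -/
theorem oscillating (a b : ℕ) (hb : 0 < b) (hl : 1 < (a : ℝ) / b) (R : ℝ) :
    ∃ (n : ℕ) (T : ℤ[X]), IsMonicOfDegree T (n + 2) ∧ ∀ i : ℕ,
      R < (-1) ^ i * (T.map (Int.castRingHom ℝ)).eval
        ((a : ℝ) / b * (2 + 2 * Real.cos (i * (Real.pi / (n + 2 : ℕ))))) := by
  set l : ℝ := (a : ℝ) / b with hldef
  obtain ⟨K, hK⟩ := pow_unbounded_of_one_lt (2 / (l - 1)) hl
  obtain ⟨r0, hr0⟩ := pow_unbounded_of_one_lt R hl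
  have hpos : 0 < K.factorial * b ^ K := Nat.mul_pos K.factorial_pos (pow_pos hb K)
  obtain ⟨n, hn⟩ : ∃ n, n + 2 = K.factorial * b ^ K * (r0 + K + 2) :=
    ⟨K.factorial * b ^ K * (r0 + K + 2) - 2, by
      have : r0 + K + 2 ≤ K.factorial * b ^ K * (r0 + K + 2) := Nat.le_mul_of_pos_left _ hpos
      omega⟩
  have hnl : r0 + K + 2 ≤ n + 2 := hn ▸ Nat.le_mul_of_pos_left _ hpos
  have hl0 : 0 ≤ l := by linarith
  obtain ⟨q, hq1, hq2, hq3⟩ := correct hl0 (n + 2 - K) (B l (n + 2))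
    (fun i hi => top_int a b hb K (r0 + K + 2) (n + 1) hn i hi)
  have hB := B_monic l (n + 2)
  all_goals
    have hqm : IsMonicOfDegree q (n + 2) := by
      rw [isMonicOfDegree_iff]
      refine ⟨?_, ?_⟩
      · rw [natDegree_le_iff_coeff_eq_zero]
        intro i hi
        rw [hq2 i (by omega)]
        exact coeff_eq_zero_of_natDegree_lt (by rw [hB.natDegree_eq]; exact hi)
      · rw [hq2 _ (by omega)]
        have := hB.monic.coeff_natDegree
        rwa [hB.natDegree_eq] at this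
    have hlift : q ∈ lifts (Int.castRingHom ℝ) := by
      rw [lifts_iff_coeff_lifts]
      intro i
      obtain ⟨z, hz⟩ := hq1 i
      exact ⟨z, hz.symm⟩
    obtain ⟨T, hT1, hT2, hT3⟩ := lifts_and_natDegree_eq_and_monic hlift hqm.monic
    refine ⟨n, T, ⟨by rw [hT2, hqm.natDegree_eq], hT3⟩, fun i => ?_⟩
    rw [hT1]
    have h1 := hq3 (i * (Real.pi / (n + 2 : ℕ)))
    rw [B_eval] at h1
    have h2 : ((n + 1 + 1 : ℕ) : ℝ) * (i * (Real.pi / (n + 2 : ℕ))) = i * Real.pi := by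
      have : ((n + 2 : ℕ) : ℝ) ≠ 0 := by positivity
      rw [show n + 1 + 1 = n + 2 from rfl]
      field_simp
    rw [h2, Real.cos_nat_mul_pi] at h1
    have h3 : ∑ i ∈ Finset.range (n + 2 - K), 2 * l ^ i ≤ l ^ (n + 2) := by
      rw [← Finset.mul_sum, geom_sum_eq hl.ne']
      have h4 : l ^ (n + 2) = l ^ (n + 2 - K) * l ^ K := by
        rw [← pow_add]; congr 1; omega
      have h5 : 0 < l - 1 := by linarith
      rw [div_lt_iff₀ h5] at hK
      rw [h4, ← mul_div_assoc, div_le_iff₀ h5]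
      have h6 := pow_nonneg hl0 (n + 2 - K)
      nlinarith
    have h7 : l ^ r0 ≤ l ^ (n + 2) := pow_le_pow_right₀ hl.le (by omega)
    rw [show n + 1 + 1 = n + 2 from rfl] at h1
    rcases neg_one_pow_eq_or ℝ i with h | h <;> rw [h] at h1 ⊢ <;> rw [abs_le] at h1 <;>
      linarith [h1.1, h1.2]

end Pool.Agent.H.MP_be0b77_nt
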