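import Pool.Agent.H.MP_be0b77_nt.A

/-! Real roots, two-adic roots, and the dynamics of the squaring map on two-adic integers. -/

namespace Pool.Agent.H.MP_be0b77_nt

open Polynomial

theorem real_roots (F : ℝ[X]) (M : ℕ) (hF : IsMonicOfDegree F M) (t : ℕ → ℝ)
    (ht : ∀ i, i < M → t (i + 1) < t i) (hs : ∀ i, i ≤ M → 0 < (-1) ^ i * F.eval (t i))
    (z : ℂ) (hz : aeval z F = 0) : z.im = 0 ∧ t M ≤ z.re ∧ z.re ≤ t 0 := by
  classical
  have hmono : ∀ i j, i ≤ j → j ≤ M → t j ≤ t i := by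
    intro i j hij
    induction j, hij using Nat.le_induction with
    | base => exact fun _ => le_rfl
    | succ j _ ih => exact fun h => (ht j (by omega)).le.trans (ih (by omega))
  have hr : ∀ i, i < M → ∃ r, r ∈ Set.Ioo (t (i + 1)) (t i) ∧ F.eval r = 0 := by
    intro i hi
    have hc : ContinuousOn (fun x : ℝ => (-1) ^ i * F.eval x) (Set.Icc (t (i + 1)) (t i)) :=
      (continuous_const.mul F.continuous).continuousOn
    have h1 := hs i hi.le
    have h2 := hs (i + 1) hi
    obtain ⟨r, hr1, hr2⟩ := intermediate_value_Ioo (ht i hi).le hc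
      (show (0 : ℝ) ∈ Set.Ioo _ _ from ⟨by rw [pow_succ] at h2; linarith, h1⟩)
    exact ⟨r, hr1, (mul_eq_zero.1 hr2).resolve_left (pow_ne_zero _ (by norm_num))⟩
  choose! r hr1 hr2 using hr
  have hanti : ∀ i j, i < j → j < M → r j < r i := fun i j hij hj =>
    ((hr1 j hj).2.trans_le (hmono (i + 1) j hij hj.le)).trans (hr1 i (by omega)).1
  have hne : F.map (algebraMap ℝ ℂ) ≠ 0 := (hF.monic.map _).ne_zero
  have hsub : (Finset.range M).image (fun i => (r i : ℂ)) ⊆
      (F.map (algebraMap ℝ ℂ)).roots.toFinset := by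
    intro w hw
    obtain ⟨i, hi, rfl⟩ := Finset.mem_image.1 hw
    rw [Multiset.mem_toFinset, mem_roots hne, IsRoot.def, eval_map_algebraMap]
    have := aeval_algebraMap_apply ℂ (r i) F
    rw [coe_aeval_eq_eval, hr2 i (Finset.mem_range.1 hi), map_zero] at this
    exact this
  have hcard : ((Finset.range M).image (fun i => (r i : ℂ))).card = M := by
    rw [Finset.card_image_of_injOn, Finset.card_range]
    intro i hi j hj hij
    have h1 : r i = r j := Complex.ofReal_injective hij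
    have hi' := Finset.mem_range.1 hi
    have hj' := Finset.mem_range.1 hj
    rcases lt_trichotomy i j with h | h | h
    · exact absurd h1 (hanti i j h hj').ne'
    · exact h
    · exact absurd h1 (hanti j i h hi').ne
  have heq := Finset.eq_of_subset_of_card_le hsub (by
    rw [hcard]
    refine (Multiset.toFinset_card_le _).trans ((card_roots' _).trans ?_)
    rw [hF.monic.natDegree_map, hF.natDegree_eq])
  have hz' : z ∈ (F.map (algebraMap ℝ ℂ)).roots.toFinset := by
    rw [Multiset.mem_toFinset, mem_roots hne, IsRoot.def, eval_map_algebraMap]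
    exact hz
  rw [← heq] at hz'
  obtain ⟨i, hi, rfl⟩ := Finset.mem_image.1 hz'
  have hi' := Finset.mem_range.1 hi
  refine ⟨Complex.ofReal_im _, ?_, ?_⟩ <;> rw [Complex.ofReal_re]
  · exact (hmono (i + 1) M hi' le_rfl).trans (hr1 i hi').1.le
  · exact (hr1 i hi').2.le.trans (hmono 0 i (Nat.zero_le _) hi'.le)

theorem many {s : ℝ} (hs : 4 < s) (N : ℕ) : ∃ (n : ℕ) (U : ℤ[X]), IsMonicOfDegree U (n + 2) ∧
    (2 : ℤ) ∣ U.coeff 0 ∧ ¬ (2 : ℤ) ∣ U.coeff 1 ∧ ∀ j : ℕ, j ≤ N → ∀ z : ℂ,
      aeval z (U - C (2 * (j : ℤ))) = 0 → z.im = 0 ∧ 0 ≤ z.re ∧ z.re ≤ s := by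
  obtain ⟨q, hq1, hq2⟩ := exists_rat_btwn (show (1 : ℝ) < s / 4 by linarith)
  have hq0 : (0 : ℚ) ≤ q := by
    have : (0 : ℝ) ≤ q := by linarith
    exact_mod_cast this
  have hq : (q : ℝ) = (q.num.toNat : ℝ) / (q.den : ℝ) := by
    have h1 : ((q.num.toNat : ℕ) : ℤ) = q.num := Int.toNat_of_nonneg (Rat.num_nonneg.2 hq0)
    have h2 : ((q.num.toNat : ℕ) : ℝ) = (q.num : ℝ) := by exact_mod_cast h1
    rw [h2, Rat.cast_def]
  obtain ⟨n, T, hT, hosc⟩ := oscillating q.num.toNat q.den q.den_pos (hq ▸ hq1) (s + 1 + 2 * N)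
  rw [← hq] at hosc
  set e : ℤ := (T.coeff 1 + 1) % 2 with he
  set y : ℤ := T.coeff 0 % 2 with hy
  have hU : IsMonicOfDegree (T + (C e * X - C y)) (n + 2) := by
    refine hT.add_right ?_
    have : (C e * X - C y).natDegree ≤ 1 := by compute_degree
    omega
  refine ⟨n, T + (C e * X - C y), hU, ?_, ?_, fun j hj z hz => ?_⟩
  · simp only [coeff_add, coeff_sub, coeff_C_mul, coeff_X_zero, coeff_C_zero]
    omega
  · simp only [coeff_add, coeff_sub, coeff_C_mul, coeff_X_one, coeff_C_succ]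
    omega
  have hU2 : IsMonicOfDegree (T + (C e * X - C y) - C (2 * (j : ℤ))) (n + 2) :=
    hU.sub (by rw [natDegree_C]; omega)
  have hpi := Real.pi_pos
  have hn : (0 : ℝ) < (n + 2 : ℕ) := by positivity
  have key := real_roots ((T + (C e * X - C y) - C (2 * (j : ℤ))).map (Int.castRingHom ℝ)) (n + 2)
    ⟨by rw [hU2.monic.natDegree_map, hU2.natDegree_eq], hU2.monic.map _⟩
    (fun i => (q : ℝ) * (2 + 2 * Real.cos (i * (Real.pi / (n + 2 : ℕ))))) (by
      intro i hi
      have h0 : (0 : ℝ) < Real.pi / (n + 2 : ℕ) := by positivity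
      have h1 : Real.cos ((i + 1 : ℕ) * (Real.pi / (n + 2 : ℕ))) <
          Real.cos (i * (Real.pi / (n + 2 : ℕ))) := by
        apply Real.cos_lt_cos_of_nonneg_of_le_pi (by positivity)
        · have h2 : ((i + 1 : ℕ) : ℝ) ≤ (n + 2 : ℕ) := by exact_mod_cast hi
          calc _ ≤ ((n + 2 : ℕ) : ℝ) * (Real.pi / (n + 2 : ℕ)) := by gcongr
            _ = Real.pi := by field_simp
        · push_cast at h0 ⊢
          linarith
      nlinarith) (by
      intro i _
      have h1 := hosc i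
      set x := (q : ℝ) * (2 + 2 * Real.cos (i * (Real.pi / (n + 2 : ℕ)))) with hx
      have hx0 : 0 ≤ x := by
        have := Real.neg_one_le_cos (i * (Real.pi / (n + 2 : ℕ)))
        rw [hx]; apply mul_nonneg <;> linarith
      have hx1 : x ≤ s := by
        have := Real.cos_le_one (i * (Real.pi / (n + 2 : ℕ)))
        rw [hx]; nlinarith
      have he0 : (0 : ℝ) ≤ e := by exact_mod_cast (show 0 ≤ e by omega)
      have he1 : (e : ℝ) ≤ 1 := by exact_mod_cast (show e ≤ 1 by omega)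
      have hy0 : (0 : ℝ) ≤ y := by exact_mod_cast (show 0 ≤ y by omega)
      have hy1 : (y : ℝ) ≤ 1 := by exact_mod_cast (show y ≤ 1 by omega)
      have hj0 : (0 : ℝ) ≤ j := by positivity
      have hj1 : (j : ℝ) ≤ N := by exact_mod_cast hj
      have hex0 : 0 ≤ e * x := mul_nonneg he0 hx0
      have hex1 : e * x ≤ s := by nlinarith
      rw [Polynomial.map_sub, Polynomial.map_add, Polynomial.map_sub, Polynomial.map_mul, map_C,
        map_C, map_C, map_X, eval_sub, eval_add, eval_sub, eval_mul, eval_C, eval_C, eval_C, eval_X]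
      simp only [eq_intCast, Int.cast_mul, Int.cast_ofNat, Int.cast_natCast]
      rcases neg_one_pow_eq_or ℝ i with h | h <;> rw [h] at h1 ⊢ <;> linarith)
    z (by
      rw [show Int.castRingHom ℝ = algebraMap ℤ ℝ from rfl, aeval_map_algebraMap]
      exact hz)
  refine ⟨key.1, le_trans ?_ key.2.1, key.2.2.trans ?_⟩
  · have := Real.neg_one_le_cos ((n + 2 : ℕ) * (Real.pi / (n + 2 : ℕ)))
    apply mul_nonneg <;> linarith
  · have := Real.cos_le_one ((0 : ℕ) * (Real.pi / (n + 2 : ℕ)))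
    nlinarith

theorem hensel2 (G : ℤ[X]) (h0 : (2 : ℤ) ∣ G.coeff 0) (h1 : ¬ (2 : ℤ) ∣ G.coeff 1) :
    ∃ z : ℤ_[2], aeval z G = 0 := by
  have e0 : aeval (0 : ℤ_[2]) G = (G.coeff 0 : ℤ_[2]) := by
    rw [aeval_def, eval₂_at_zero]; simp
  have e1 : aeval (0 : ℤ_[2]) (derivative G) = (G.coeff 1 : ℤ_[2]) := by
    rw [aeval_def, eval₂_at_zero, coeff_derivative]; simp
  have n0 : ‖(G.coeff 0 : ℤ_[2])‖ < 1 := (PadicInt.norm_int_lt_one_iff_dvd _).2 (by simpa using h0)
  have n1 : ‖(G.coeff 1 : ℤ_[2])‖ = 1 := by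
    refine le_antisymm (PadicInt.norm_le_one _) (not_lt.1 fun h => h1 ?_)
    simpa using (PadicInt.norm_int_lt_one_iff_dvd _).1 h
  obtain ⟨z, hz, -⟩ := hensels_lemma (F := G) (a := (0 : ℤ_[2])) (by rw [e0, e1, n1]; simpa using n0)
  exact ⟨z, hz⟩

/-- the squaring map in trace coordinates -/
def phi {R : Type*} [CommRing R] (x : R) : R := x ^ 2 - 2

theorem two_dvd (x : ℤ_[2]) : (2 : ℤ_[2]) ∣ x + phi x := by
  have h : x + phi x ∈ RingHom.ker (PadicInt.toZMod : ℤ_[2] →+* ZMod 2) := by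
    rw [RingHom.mem_ker, phi, map_add, map_sub, map_pow, map_ofNat]
    generalize PadicInt.toZMod x = u
    revert u
    decide
  rw [PadicInt.ker_toZMod, PadicInt.maximalIdeal_eq_span_p, Ideal.mem_span_singleton] at h
  exact_mod_cast h

theorem iter_sub (x : ℤ_[2]) (k : ℕ) :
    ∃ u, phi^[k + 1] x - phi^[k + 1] (phi x) = 2 * u * (x - phi x) := by
  have step : ∀ y : ℤ_[2], ∃ u, phi y - phi (phi y) = 2 * u * (y - phi y) := by
    intro y
    obtain ⟨u, hu⟩ := two_dvd y
    refine ⟨u, ?_⟩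
    rw [← hu]
    simp only [phi]
    ring
  induction k with
  | zero => simpa using step x
  | succ k ih =>
    obtain ⟨u, hu⟩ := ih
    obtain ⟨v, hv⟩ := step (phi^[k + 1] x)
    refine ⟨2 * v * u, ?_⟩
    have h1 : phi^[k + 1] (phi x) = phi (phi^[k + 1] x) := by
      rw [← Function.iterate_succ_apply, Function.iterate_succ_apply']
    rw [Function.iterate_succ_apply' phi (k + 1), Function.iterate_succ_apply' phi (k + 1), h1, hv,
      ← h1, hu]
    ring

theorem small_of_phi (x : ℤ_[2])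
    (h : phi x = 2 ∨ phi x = -2 ∨ phi x = 0 ∨ phi x = 1 ∨ phi x = -1) :
    x = 2 ∨ x = -2 ∨ x = 0 ∨ x = 1 ∨ x = -1 := by
  have no : ∀ c : ℤ, (∀ u : ZMod (2 ^ 2), u ^ 2 - 2 ≠ (c : ZMod (2 ^ 2))) → phi x ≠ c := by
    intro c hc h
    have := congrArg (PadicInt.toZModPow 2 : ℤ_[2] →+* ZMod (2 ^ 2)) h
    rw [phi, map_sub, map_pow, map_ofNat, map_intCast] at this
    exact hc _ this
  rcases h with h | h | h | h | h
  · have : (x - 2) * (x + 2) = 0 := by rw [phi] at h; linear_combination h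
    rcases mul_eq_zero.1 this with h | h
    · exact Or.inl (sub_eq_zero.1 h)
    · exact Or.inr (Or.inl (eq_neg_of_add_eq_zero_left h))
  · have : x ^ 2 = 0 := by rw [phi] at h; linear_combination h
    exact Or.inr (Or.inr (Or.inl (pow_eq_zero_iff two_ne_zero |>.1 this)))
  · exact absurd (by simpa using h) (no 0 (by decide))
  · exact absurd (by simpa using h) (no 1 (by decide))
  · have : (x - 1) * (x + 1) = 0 := by rw [phi] at h; linear_combination h
    rcases mul_eq_zero.1 this with h | h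
    · exact Or.inr (Or.inr (Or.inr (Or.inl (sub_eq_zero.1 h))))
    · exact Or.inr (Or.inr (Or.inr (Or.inr (eq_neg_of_add_eq_zero_left h))))

theorem preper (x : ℤ_[2]) {m n : ℕ} (hmn : m < n) (h : phi^[m] x = phi^[n] x) :
    x = 2 ∨ x = -2 ∨ x = 0 ∨ x = 1 ∨ x = -1 := by
  obtain ⟨k, rfl⟩ := Nat.exists_eq_add_of_lt hmn
  set c := phi^[m] x with hc
  have h1 : phi^[k + 1] c = c := by
    rw [hc, ← Function.iterate_add_apply, show k + 1 + m = m + k + 1 by ring, ← h]
  have h2 : phi^[k + 1] (phi c) = phi c := by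
    rw [← Function.iterate_succ_apply, Function.iterate_succ_apply', h1]
  obtain ⟨u, hu⟩ := iter_sub c k
  rw [h1, h2] at hu
  have h3 : (1 - 2 * u) * (c - phi c) = 0 := by linear_combination hu
  have h4 : (1 - 2 * u : ℤ_[2]) ≠ 0 := by
    intro h5
    have := congrArg (PadicInt.toZMod : ℤ_[2] →+* ZMod 2) h5
    rw [map_sub, map_mul, map_one, map_ofNat, map_zero] at this
    revert this
    generalize PadicInt.toZMod u = v
    revert v
    decide
  have h5 := (mul_eq_zero.1 h3).resolve_left h4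
  have h6 : (c - 2) * (c + 1) = 0 := by rw [phi] at h5; linear_combination -h5
  have h7 : c = 2 ∨ c = -2 ∨ c = 0 ∨ c = 1 ∨ c = -1 := by
    rcases mul_eq_zero.1 h6 with h | h
    · exact Or.inl (sub_eq_zero.1 h)
    · exact Or.inr (Or.inr (Or.inr (Or.inr (eq_neg_of_add_eq_zero_left h))))
  rw [hc] at h7
  clear h1 h2 hu h3 h5 h6 h hc c hmn
  induction m with
  | zero => exact h7
  | succ m ih =>
    rw [Function.iterate_succ_apply'] at h7
    exact ih (small_of_phi _ h7)

theorem map_iter {R S : Type*} [CommRing R] [CommRing S] (f : R →+* S) (x : R) (n : ℕ) :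
    f (phi^[n] x) = phi^[n] (f x) := by
  induction n with
  | zero => rfl
  | succ n ih =>
    rw [Function.iterate_succ_apply', Function.iterate_succ_apply', ← ih]
    simp [phi, map_ofNat]

theorem iter_integral {R : Type*} [CommRing R] {x : R} (hx : IsIntegral ℤ x) (n : ℕ) :
    IsIntegral ℤ (phi^[n] x) := by
  induction n with
  | zero => exact hx
  | succ n ih =>
    rw [Function.iterate_succ_apply']
    refine (ih.pow 2).sub ?_
    simpa using (isIntegral_algebraMap (R := ℤ) (A := R) (x := 2))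

theorem iter_norm {z : ℂ} (h1 : z.im = 0) (h2 : -2 ≤ z.re) (h3 : z.re ≤ 2) (n : ℕ) :
    ‖phi^[n] z‖ ≤ 2 := by
  have key : ∀ n, ∃ r : ℝ, phi^[n] z = r ∧ -2 ≤ r ∧ r ≤ 2 := by
    intro n
    induction n with
    | zero => exact ⟨z.re, Complex.ext (by simp) (by simpa using h1), h2, h3⟩
    | succ n ih =>
      obtain ⟨r, hr, hr1, hr2⟩ := ih
      refine ⟨r ^ 2 - 2, ?_, by nlinarith, by nlinarith⟩
      rw [Function.iterate_succ_apply', hr, phi]
      push_cast
      ring
  obtain ⟨r, hr, hr1, hr2⟩ := key n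
  rw [hr, Complex.norm_real, Real.norm_eq_abs, abs_le]
  exact ⟨hr1, hr2⟩

/-- an algebraic integer with all conjugates in the interval from minus two to two is
preperiodic -/
theorem preper_of_conj {F : Type*} [Field F] [CharZero F] (b : F) (hb : IsIntegral ℤ b)
    (hc : ∀ z : ℂ, aeval z (minpoly ℚ b) = 0 → z.im = 0 ∧ -2 ≤ z.re ∧ z.re ≤ 2) :
    ∃ m n : ℕ, m < n ∧ phi^[m] b = phi^[n] b := by
  have hbq : IsIntegral ℚ b := hb.tower_top
  have : FiniteDimensional ℚ (IntermediateField.adjoin ℚ {b}) :=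
    IntermediateField.adjoin.finiteDimensional hbq
  have : NumberField (IntermediateField.adjoin ℚ {b}) := ⟨⟩
  set g := IntermediateField.AdjoinSimple.gen ℚ b with hg
  have hgi : IsIntegral ℤ g := by
    rw [← isIntegral_algHom_iff (IntermediateField.val _).toRingHom.toIntAlgHom
      Subtype.val_injective]
    exact hb
  have hfin := NumberField.Embeddings.finite_of_norm_le (IntermediateField.adjoin ℚ {b}) ℂ 2
  have hmem : ∀ n : ℕ, phi^[n] g ∈ {x : IntermediateField.adjoin ℚ {b} | IsIntegral ℤ x ∧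
      ∀ φ : IntermediateField.adjoin ℚ {b} →+* ℂ, ‖φ x‖ ≤ 2} := by
    intro n
    refine ⟨iter_integral hgi n, fun φ => ?_⟩
    have h1 : aeval (φ g) (minpoly ℚ b) = 0 := by
      rw [← IntermediateField.minpoly_gen ℚ b, ← hg]
      have := aeval_algHom_apply φ.toRatAlgHom g (minpoly ℚ g)
      rw [minpoly.aeval, map_zero] at this
      exact this
    obtain ⟨h2, h3, h4⟩ := hc _ h1
    rw [map_iter]
    exact iter_norm h2 h3 h4 n
  obtain ⟨m, n, hmn, h⟩ := hfin.exists_lt_map_eq_of_forall_mem hmem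
  refine ⟨m, n, hmn, ?_⟩
  have := congrArg (IntermediateField.val _).toRingHom h
  rw [map_iter, map_iter] at this
  exact this

end Pool.Agent.H.MP_be0b77_nt
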