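import Pool.Agent.H.MP_be0b77_nt.B

/-! The field of totally real numbers lying in the two-adic numbers. -/

namespace Pool.Agent.H.MP_be0b77_nt

open Polynomial

/-- algebraic two-adic numbers -/
noncomputable abbrev F : IntermediateField ℚ ℚ_[2] := algebraicClosure ℚ ℚ_[2]

instance : Algebra.IsAlgebraic ℚ F := algebraicClosure.isAlgebraic ℚ ℚ_[2]

/-- a complex embedding -/
noncomputable def emb : F →ₐ[ℚ] ℂ := IsAlgClosed.lift

/-- totally real algebraic two-adic numbers -/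
noncomputable def K0 : Subfield F :=
  ⨅ σ : F →ₐ[ℚ] ℂ, (Complex.ofRealHom.fieldRange).comap σ.toRingHom

/-- the field -/
noncomputable def K : Subfield ℂ := K0.map emb.toRingHom

theorem mem_K0 (x : F) : x ∈ K0 ↔ ∀ σ : F →ₐ[ℚ] ℂ, (σ x).im = 0 := by
  rw [K0, Subfield.mem_iInf]
  refine forall_congr' fun σ => ?_
  rw [Subfield.mem_comap, RingHom.mem_fieldRange]
  constructor
  · rintro ⟨r, hr⟩
    have : σ x = (r : ℂ) := hr.symm
    rw [this, Complex.ofReal_im]
  · intro h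
    exact ⟨(σ x).re, Complex.ext rfl h.symm⟩

theorem root_iff (x : F) (z : ℂ) :
    aeval z (minpoly ℚ x) = 0 ↔ ∃ σ : F →ₐ[ℚ] ℂ, σ x = z := by
  have h := Algebra.IsAlgebraic.range_eval_eq_rootSet_minpoly (F := ℚ) (K := F) ℂ x
  rw [← mem_rootSet_of_ne (minpoly.ne_zero (Algebra.IsIntegral.isIntegral x)), ← h]
  rfl

theorem root_iff' (x : F) (z : ℂ) :
    aeval z (minpoly ℚ (emb x)) = 0 ↔ ∃ σ : F →ₐ[ℚ] ℂ, σ x = z := by
  rw [minpoly.algHom_eq emb emb.toRingHom.injective, root_iff]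

theorem K_real (x : ℂ) (hx : x ∈ K) :
    IsIntegral ℚ x ∧ ∀ z : ℂ, aeval z (minpoly ℚ x) = 0 → z.im = 0 := by
  obtain ⟨y, hy, rfl⟩ := Subfield.mem_map.1 hx
  refine ⟨(Algebra.IsIntegral.isIntegral y).map emb, fun z hz => ?_⟩
  obtain ⟨σ, rfl⟩ := (root_iff' y z).1 hz
  exact (mem_K0 y).1 hy σ

theorem fin_four : {α : ℂ | α ∈ K ∧ IsIntegral ℤ α ∧ ∀ z : ℂ, aeval z (minpoly ℚ α) = 0 →
    z.im = 0 ∧ 0 ≤ z.re ∧ z.re ≤ 4}.Finite := by
  refine (Set.toFinite ({4, 0, 2, 3, 1} : Set ℂ)).subset ?_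
  rintro α ⟨hK, hint, hc⟩
  obtain ⟨y, -, rfl⟩ := Subfield.mem_map.1 hK
  have hy : IsIntegral ℤ y :=
    (isIntegral_algHom_iff emb.toRingHom.toIntAlgHom emb.toRingHom.injective).1 hint
  have hb : IsIntegral ℤ (y - 2) := by
    refine hy.sub ?_
    simpa using (isIntegral_algebraMap (R := ℤ) (A := F) (x := 2))
  obtain ⟨m, n, hmn, h⟩ := preper_of_conj (y - 2) hb (by
    intro z hz
    obtain ⟨σ, rfl⟩ := (root_iff _ z).1 hz
    obtain ⟨h1, h2, h3⟩ := hc (σ y) ((root_iff' y _).2 ⟨σ, rfl⟩)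
    rw [map_sub, map_ofNat]
    simp only [Complex.sub_im, Complex.sub_re, Complex.re_ofNat, Complex.im_ofNat]
    exact ⟨by linarith, by linarith, by linarith⟩)
  have hb2 : IsIntegral ℤ ((y - 2 : F) : ℚ_[2]) := hb.map F.val.toRingHom.toIntAlgHom
  have hb3 : IsIntegral ℤ_[2] ((y - 2 : F) : ℚ_[2]) := hb2.tower_top
  obtain ⟨x, hx⟩ := IsIntegrallyClosed.isIntegral_iff.1 hb3
  have h2 : phi^[m] x = phi^[n] x := by
    apply IsFractionRing.injective ℤ_[2] ℚ_[2]
    rw [map_iter, map_iter, hx]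
    have := congrArg F.val.toRingHom h
    rw [map_iter, map_iter] at this
    exact this
  have key : ∀ c : ℤ, x = c → emb y = c + 2 := by
    intro c hc
    have h3 : y - 2 = (c : F) := by
      apply Subtype.val_injective
      rw [← hx, hc]
      simp
    rw [eq_add_of_sub_eq h3, map_add, map_intCast, map_ofNat]
  change emb y ∈ _
  rcases preper x hmn h2 with h | h | h | h | h
  · rw [key 2 (by simpa using h)]; norm_num
  · rw [key (-2) (by simpa using h)]; norm_num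
  · rw [key 0 (by simpa using h)]; norm_num
  · rw [key 1 (by simpa using h)]; norm_num
  · rw [key (-1) (by simpa using h)]; norm_num

theorem inf_gt {s : ℝ} (hs : 4 < s) : {α : ℂ | α ∈ K ∧ IsIntegral ℤ α ∧
    ∀ z : ℂ, aeval z (minpoly ℚ α) = 0 → z.im = 0 ∧ 0 ≤ z.re ∧ z.re ≤ s}.Infinite := by
  classical
  intro hfin
  obtain ⟨n, U, hU, h0, h1, hr⟩ := many hs hfin.toFinset.card
  have hex : ∀ j : ℕ, ∃ y : F, IsIntegral ℤ y ∧ aeval y (U - C (2 * (j : ℤ))) = 0 := by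
    intro j
    have hm : (U - C (2 * (j : ℤ))).Monic := (hU.sub (by rw [natDegree_C]; omega)).monic
    obtain ⟨z, hz⟩ := hensel2 (U - C (2 * (j : ℤ))) (by
      rw [coeff_sub, coeff_C_zero]; omega) (by rw [coeff_sub, coeff_C_succ]; omega)
    have hz2 : aeval (z : ℚ_[2]) (U - C (2 * (j : ℤ))) = 0 := by
      have := aeval_algHom_apply (algebraMap ℤ_[2] ℚ_[2]).toIntAlgHom z (U - C (2 * (j : ℤ)))
      rw [hz, map_zero] at this
      exact this
    have hi : IsIntegral ℤ (z : ℚ_[2]) := ⟨_, hm, hz2⟩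
    have hy : aeval (⟨z, mem_algebraicClosure_iff'.2 hi.tower_top⟩ : F)
        (U - C (2 * (j : ℤ))) = 0 := by
      apply Subtype.val_injective
      have := aeval_algHom_apply F.val.toRingHom.toIntAlgHom
        (⟨z, mem_algebraicClosure_iff'.2 hi.tower_top⟩ : F) (U - C (2 * (j : ℤ)))
      exact this.symm.trans hz2
    exact ⟨_, ⟨_, hm, hy⟩, hy⟩
  choose y hy1 hy2 using hex
  have hσ : ∀ (σ : F →ₐ[ℚ] ℂ) (j : ℕ), aeval (σ (y j)) (U - C (2 * (j : ℤ))) = 0 := by
    intro σ j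
    have := aeval_algHom_apply σ.toRingHom.toIntAlgHom (y j) (U - C (2 * (j : ℤ)))
    rw [hy2, map_zero] at this
    exact this
  have hle := Finset.card_le_card_of_injOn (s := Finset.range (hfin.toFinset.card + 1))
    (t := hfin.toFinset) (fun j => emb (y j)) (by
      intro j hj
      have hj' : j ≤ hfin.toFinset.card := Nat.lt_succ_iff.1 (Finset.mem_range.1 hj)
      rw [Finset.mem_coe, Set.Finite.mem_toFinset]
      refine ⟨Subfield.mem_map.2 ⟨y j, (mem_K0 _).2 fun σ => (hr j hj' _ (hσ σ j)).1, rfl⟩,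
        (hy1 j).map emb.toRingHom.toIntAlgHom, fun z hz => ?_⟩
      obtain ⟨σ, rfl⟩ := (root_iff' _ z).1 hz
      exact hr j hj' _ (hσ σ j)) (by
      intro i _ j _ hij
      have h2 := hσ emb i
      have h3 := hσ emb j
      have hij' : emb (y i) = emb (y j) := hij
      rw [hij', map_sub, aeval_C] at h2
      rw [map_sub, aeval_C] at h3
      have h4 : algebraMap ℤ ℂ (2 * (i : ℤ)) = algebraMap ℤ ℂ (2 * (j : ℤ)) := by
        linear_combination h3 - h2
      have h5 := (algebraMap ℤ ℂ).injective_int h4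
      omega)
  rw [Finset.card_range] at hle
  omega

end Pool.Agent.H.MP_be0b77_nt
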